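import Mathlib

set_option autoImplicit false

namespace Pool.Agent.H1.G3

/-- The set of values of the nonempty subset sums of the sequence `b 0, …, b (k-1)`. -/
def SubsetSums {k : ℕ} (b : Fin k → ℕ) : Set ℕ :=
  {s | ∃ E : Finset (Fin k), E.Nonempty ∧ s = ∑ i ∈ E, b i}

/-- `S` contains an `r`-term arithmetic progression with nonzero difference. -/
def HasAP (r : ℕ) (S : Set ℕ) : Prop :=
  ∃ x d : ℕ, 0 < d ∧ ∀ j < r, x + j * d ∈ S

/-- `m` is the largest element `b_k` of a strictly increasing sequence of `k` positive integers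
whose set of nonempty subset sums contains no `r`-term arithmetic progression. -/
def Attains (r k m : ℕ) : Prop :=
  ∃ b : Fin k → ℕ, StrictMono b ∧ (∀ i, 0 < b i) ∧ IsGreatest (Set.range b) m ∧
    ¬ HasAP r (SubsetSums b)

/-- `g r k` is the minimum of `b_k` over all such sequences. -/
noncomputable def g (r k : ℕ) : ℕ := sInf {m | Attains r k m}

end Pool.Agent.H1.G3
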