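import Pool.Agent.H1.G3.Defs

set_option autoImplicit false

namespace Pool.Agent.H1.G3

open Finset

/-- weighted sum with coefficients `0,1,2` -/
def ws {k : ℕ} (b : Fin k → ℕ) (e : Fin k → Fin 3) : ℕ := ∑ i, (e i : ℕ) * b i

/-- all sums with coefficients `0,1,2` are distinct -/
def Dist3 {k : ℕ} (b : Fin k → ℕ) : Prop := Function.Injective (ws b)

/-! ### distinct `{0,1,2}`-sums imply no 3-term progression -/

theorem noAP_of_dist {k : ℕ} {b : Fin k → ℕ} (h : Dist3 b) : ¬ HasAP 3 (SubsetSums b) := by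
  rintro ⟨x, d, hd, hx⟩
  obtain ⟨X, -, hX⟩ := hx 0 (by norm_num)
  obtain ⟨Y, -, hY⟩ := hx 1 (by norm_num)
  obtain ⟨Z, -, hZ⟩ := hx 2 (by norm_num)
  classical
  set e : Fin k → Fin 3 := fun i => if i ∈ X then (if i ∈ Z then 2 else 1) else
    (if i ∈ Z then 1 else 0) with he
  set e' : Fin k → Fin 3 := fun i => if i ∈ Y then 2 else 0 with he'
  have h1 : ws b e = ∑ i ∈ X, b i + ∑ i ∈ Z, b i := by
    rw [ws, ← Finset.sum_filter_add_sum_filter_not univ (fun i => i ∈ X)]
    have a1 : ∀ T : Finset (Fin k), ∑ i ∈ T, b i = ∑ i, if i ∈ T then b i else 0 := by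
      intro T
      rw [Finset.sum_ite_mem, Finset.univ_inter]
    rw [a1 X, a1 Z, ← Finset.sum_add_distrib,
      Finset.sum_filter_add_sum_filter_not univ (fun i => i ∈ X)]
    apply Finset.sum_congr rfl
    intro i _
    simp only [he]
    split_ifs <;> simp <;> ring
  have h2 : ws b e' = 2 * ∑ i ∈ Y, b i := by
    rw [ws, Finset.mul_sum]
    have : ∀ i, ((e' i : Fin 3) : ℕ) * b i = if i ∈ Y then 2 * b i else 0 := by
      intro i
      simp only [he']
      split_ifs <;> simp
    rw [Finset.sum_congr rfl (fun i _ => this i), Finset.sum_ite_mem, Finset.univ_inter]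
  have h3 : ws b e = ws b e' := by
    rw [h1, h2, ← hX, ← hZ, ← hY]; ring
  have h4 := h h3
  have h5 : X = Y := by
    ext i
    have := congrFun h4 i
    simp only [he, he'] at this
    by_cases hi : i ∈ X <;> by_cases hj : i ∈ Y <;> by_cases hl : i ∈ Z <;>
      simp_all
  rw [h5] at hX
  omega

/-! ### a 3-term progression from a coincidence -/

theorem ap_of_lt {S : Set ℕ} {x y z : ℕ} (hx : x ∈ S) (hy : y ∈ S) (hz : z ∈ S)
    (h : x + z = 2 * y) (hne : x ≠ z) : HasAP 3 S := by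
  rcases lt_or_gt_of_ne hne with hlt | hlt
  · refine ⟨x, y - x, by omega, ?_⟩
    intro j hj
    interval_cases j
    · simpa using hx
    · have : x + 1 * (y - x) = y := by omega
      rw [this]; exact hy
    · have : x + 2 * (y - x) = z := by omega
      rw [this]; exact hz
  · refine ⟨z, y - z, by omega, ?_⟩
    intro j hj
    interval_cases j
    · simpa using hz
    · have : z + 1 * (y - z) = y := by omega
      rw [this]; exact hy
    · have : z + 2 * (y - z) = x := by omega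
      rw [this]; exact hx

/-- the main combinatorial step, for a relation given by four disjoint index sets -/
theorem ap_of_rel {k : ℕ} {b : Fin k → ℕ} (hb : StrictMono b) (hpos : ∀ i, 0 < b i)
    (c : Fin k → ℤ) (hc : ∀ i, -2 ≤ c i ∧ c i ≤ 2) (hodd : ∃ i, c i = 1 ∨ c i = -1)
    (hrel : ∑ i, c i * (b i : ℤ) = 0) : HasAP 3 (SubsetSums b) := by
  classical
  -- the statement is symmetric under `c ↦ -c`
  have key : ∀ c : Fin k → ℤ, (∀ i, -2 ≤ c i ∧ c i ≤ 2) → (∃ i, c i = 1 ∨ c i = -1) →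
      ∑ i, c i * (b i : ℤ) = 0 → (∃ i, c i = 2) → HasAP 3 (SubsetSums b) := by
    intro c hc hodd hrel h2
    set y : Finset (Fin k) := univ.filter (fun i => c i < 0) with hy
    set z : Finset (Fin k) := univ.filter (fun i => c i = 2) with hz
    set x : Finset (Fin k) := univ.filter (fun i => c i = 2 ∨ c i = 1 ∨ c i = -1) with hx
    have hsum : ∀ T : Finset (Fin k), ((∑ i ∈ T, b i : ℕ) : ℤ) =
        ∑ i, if i ∈ T then (b i : ℤ) else 0 := by
      intro T
      rw [Finset.sum_ite_mem, Finset.univ_inter]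
      push_cast
      rfl
    have e1 : ((∑ i ∈ x, b i : ℕ) : ℤ) + ((∑ i ∈ z, b i : ℕ) : ℤ) =
        2 * ((∑ i ∈ y, b i : ℕ) : ℤ) := by
      rw [hsum, hsum, hsum]
      have : (∑ i, if i ∈ x then (b i : ℤ) else 0) + (∑ i, if i ∈ z then (b i : ℤ) else 0) -
          2 * (∑ i, if i ∈ y then (b i : ℤ) else 0) = ∑ i, c i * (b i : ℤ) := by
        rw [Finset.mul_sum, ← Finset.sum_add_distrib, ← Finset.sum_sub_distrib]
        apply Finset.sum_congr rfl
        intro i _
        simp only [hx, hy, hz, mem_filter, mem_univ, true_and]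
        have := hc i
        have h5 : c i = -2 ∨ c i = -1 ∨ c i = 0 ∨ c i = 1 ∨ c i = 2 := by omega
        rcases h5 with h | h | h | h | h <;> simp [h] <;> ring
      rw [hrel] at this
      linarith
    obtain ⟨i2, hi2⟩ := h2
    have hxne : x.Nonempty := ⟨i2, by simp [hx, hi2]⟩
    have hzne : z.Nonempty := ⟨i2, by simp [hz, hi2]⟩
    have hzx : z ⊂ x := by
      rw [Finset.ssubset_iff_of_subset]
      · obtain ⟨i, hi⟩ := hodd
        refine ⟨i, ?_, ?_⟩
        · simp only [hx, mem_filter, mem_univ, true_and]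
          exact Or.inr hi
        · simp only [hz, mem_filter, mem_univ, true_and]
          omega
      · intro i hi
        simp only [hz, mem_filter, mem_univ, true_and] at hi
        simp [hx, hi]
    have hlt : ∑ i ∈ z, b i < ∑ i ∈ x, b i := by
      obtain ⟨i, hix, hiz⟩ := Finset.exists_of_ssubset hzx
      apply Finset.sum_lt_sum_of_subset hzx.1 hix hiz (hpos i)
      intro j _ _
      exact Nat.zero_le _
    have hyne : y.Nonempty := by
      by_contra hcon
      rw [Finset.not_nonempty_iff_eq_empty] at hcon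
      rw [hcon] at e1
      simp only [Finset.sum_empty, Nat.cast_zero, mul_zero] at e1
      have : (∑ i ∈ x, b i) + (∑ i ∈ z, b i) = 0 := by
        exact_mod_cast (by linarith : ((∑ i ∈ x, b i : ℕ) : ℤ) + ((∑ i ∈ z, b i : ℕ) : ℤ) = 0)
      omega
    apply ap_of_lt (S := SubsetSums b) (x := ∑ i ∈ x, b i) (y := ∑ i ∈ y, b i) (z := ∑ i ∈ z, b i)
      ⟨x, hxne, rfl⟩ ⟨y, hyne, rfl⟩ ⟨z, hzne, rfl⟩
    · exact_mod_cast e1
    · omega
  by_cases h2 : ∃ i, c i = 2
  · exact key c hc hodd hrel h2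
  by_cases h2' : ∃ i, c i = -2
  · apply key (fun i => - c i)
    · intro i
      have := hc i
      constructor <;> linarith
    · obtain ⟨i, hi⟩ := hodd
      exact ⟨i, by rcases hi with h | h <;> simp [h]⟩
    · simp only [neg_mul, Finset.sum_neg_distrib, hrel, neg_zero]
    · obtain ⟨i, hi⟩ := h2'
      exact ⟨i, by simp [hi]⟩
  -- all coefficients are in `{-1,0,1}`
  push Not at h2 h2'
  have h3 : ∀ i, c i = -1 ∨ c i = 0 ∨ c i = 1 := by
    intro i
    have := hc i
    have := h2 i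
    have := h2' i
    omega
  set P : Finset (Fin k) := univ.filter (fun i => c i = 1) with hP
  set N : Finset (Fin k) := univ.filter (fun i => c i = -1) with hN
  have hsum : ∀ T : Finset (Fin k), ((∑ i ∈ T, b i : ℕ) : ℤ) =
      ∑ i, if i ∈ T then (b i : ℤ) else 0 := by
    intro T
    rw [Finset.sum_ite_mem, Finset.univ_inter]
    push_cast
    rfl
  have e1 : ∑ i ∈ P, b i = ∑ i ∈ N, b i := by
    have : ((∑ i ∈ P, b i : ℕ) : ℤ) - ((∑ i ∈ N, b i : ℕ) : ℤ) = ∑ i, c i * (b i : ℤ) := by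
      rw [hsum, hsum, ← Finset.sum_sub_distrib]
      apply Finset.sum_congr rfl
      intro i _
      simp only [hP, hN, mem_filter, mem_univ, true_and]
      rcases h3 i with h | h | h <;> simp [h]
    rw [hrel] at this
    have : ((∑ i ∈ P, b i : ℕ) : ℤ) = ((∑ i ∈ N, b i : ℕ) : ℤ) := by linarith
    exact_mod_cast this
  have hdisj : Disjoint P N := by
    rw [Finset.disjoint_left]
    intro i hi hi'
    simp only [hP, hN, mem_filter, mem_univ, true_and] at hi hi'
    omega
  have hPN : P.Nonempty ∧ N.Nonempty := by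
    obtain ⟨i, hi⟩ := hodd
    have hposs : ∀ T : Finset (Fin k), T.Nonempty → 0 < ∑ i ∈ T, b i := by
      intro T hT
      exact Finset.sum_pos (fun i _ => hpos i) hT
    rcases hi with hi | hi
    · have h5 : P.Nonempty := ⟨i, by simp [hP, hi]⟩
      refine ⟨h5, ?_⟩
      by_contra hcon
      rw [Finset.not_nonempty_iff_eq_empty] at hcon
      rw [hcon, Finset.sum_empty] at e1
      have := hposs P h5
      omega
    · have h5 : N.Nonempty := ⟨i, by simp [hN, hi]⟩
      refine ⟨?_, h5⟩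
      by_contra hcon
      rw [Finset.not_nonempty_iff_eq_empty] at hcon
      rw [hcon, Finset.sum_empty] at e1
      have := hposs N h5
      omega
  -- symmetric step
  have step : ∀ P N : Finset (Fin k), Disjoint P N → P.Nonempty → N.Nonempty →
      ∑ i ∈ P, b i = ∑ i ∈ N, b i → ∀ i ∈ P, b i ≠ ∑ i ∈ P, b i →
      HasAP 3 (SubsetSums b) := by
    intro P N hd hP hN he i hi hne
    have hPi : (P.erase i).Nonempty := by
      by_contra hcon
      rw [Finset.not_nonempty_iff_eq_empty] at hcon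
      apply hne
      rw [← Finset.add_sum_erase P b hi, hcon]
      simp
    have h6 := Finset.add_sum_erase P b hi
    have h7 : ∑ j ∈ (P.erase i ∪ N), b j = ∑ j ∈ P.erase i, b j + ∑ j ∈ N, b j := by
      rw [Finset.sum_union]
      exact hd.mono_left (Finset.erase_subset i P)
    apply ap_of_lt (S := SubsetSums b) (x := ∑ j ∈ ({i} : Finset (Fin k)), b j) (y := ∑ j ∈ P, b j)
      (z := ∑ j ∈ (P.erase i ∪ N), b j) ⟨_, Finset.singleton_nonempty i, rfl⟩ ⟨P, hP, rfl⟩
      ⟨_, hPi.mono Finset.subset_union_left, rfl⟩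
    · rw [h7, Finset.sum_singleton, ← he]
      omega
    · rw [h7, Finset.sum_singleton]
      omega
  by_cases h8 : ∃ i ∈ P, b i ≠ ∑ i ∈ P, b i
  · obtain ⟨i, hi, hne⟩ := h8
    exact step P N hdisj hPN.1 hPN.2 e1 i hi hne
  · by_cases h9 : ∃ i ∈ N, b i ≠ ∑ i ∈ N, b i
    · obtain ⟨i, hi, hne⟩ := h9
      exact step N P hdisj.symm hPN.2 hPN.1 e1.symm i hi hne
    · exfalso
      push Not at h8 h9
      obtain ⟨i, hi⟩ := hPN.1
      obtain ⟨j, hj⟩ := hPN.2
      have h10 : b i = b j := by rw [h8 i hi, h9 j hj, e1]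
      have h11 := hb.injective h10
      subst h11
      exact Finset.disjoint_left.1 hdisj hi hj

theorem dist_of_noAP {k : ℕ} {b : Fin k → ℕ} (hb : StrictMono b) (hpos : ∀ i, 0 < b i)
    (h : ¬ HasAP 3 (SubsetSums b)) : Dist3 b := by
  intro e e' hee
  by_contra hne
  apply h
  have hrel : ∑ i, (((e i : ℕ) : ℤ) - ((e' i : ℕ) : ℤ)) * (b i : ℤ) = 0 := by
    simp only [sub_mul, Finset.sum_sub_distrib]
    have : ((ws b e : ℕ) : ℤ) = ((ws b e' : ℕ) : ℤ) := by rw [hee]
    simp only [ws] at this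
    push_cast at this
    linarith
  have hc : ∀ i, -2 ≤ (((e i : ℕ) : ℤ) - ((e' i : ℕ) : ℤ)) ∧
      (((e i : ℕ) : ℤ) - ((e' i : ℕ) : ℤ)) ≤ 2 := by
    intro i
    have := (e i).isLt
    have := (e' i).isLt
    constructor <;> omega
  by_cases hodd : ∃ i, (((e i : ℕ) : ℤ) - ((e' i : ℕ) : ℤ)) = 1 ∨
      (((e i : ℕ) : ℤ) - ((e' i : ℕ) : ℤ)) = -1
  · exact ap_of_rel hb hpos _ hc hodd hrel
  · push Not at hodd
    obtain ⟨i, hi⟩ : ∃ i, e i ≠ e' i := by
      by_contra hcon
      push Not at hcon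
      exact hne (funext hcon)
    have hi' : ((e i : ℕ) : ℤ) - ((e' i : ℕ) : ℤ) ≠ 0 := by
      intro h0
      apply hi
      apply Fin.ext
      omega
    have heven : ∀ j, ∃ m : ℤ, (((e j : ℕ) : ℤ) - ((e' j : ℕ) : ℤ)) = 2 * m ∧ -1 ≤ m ∧ m ≤ 1 := by
      intro j
      have h1 := hc j
      have h2 := hodd j
      have : (((e j : ℕ) : ℤ) - ((e' j : ℕ) : ℤ)) = -2 ∨
        (((e j : ℕ) : ℤ) - ((e' j : ℕ) : ℤ)) = 0 ∨
        (((e j : ℕ) : ℤ) - ((e' j : ℕ) : ℤ)) = 2 := by omega
      rcases this with h | h | h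
      · exact ⟨-1, by omega, by omega, by omega⟩
      · exact ⟨0, by omega, by omega, by omega⟩
      · exact ⟨1, by omega, by omega, by omega⟩
    choose m hm using heven
    apply ap_of_rel hb hpos m
    · intro j
      have := hm j
      constructor <;> omega
    · refine ⟨i, ?_⟩
      have := hm i
      omega
    · have : ∑ j, (((e j : ℕ) : ℤ) - ((e' j : ℕ) : ℤ)) * (b j : ℤ) = 2 * ∑ j, m j * (b j : ℤ) := by
        rw [Finset.mul_sum]
        apply Finset.sum_congr rfl
        intro j _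
        rw [(hm j).1]
        ring
      rw [hrel] at this
      linarith

/-! ### second moment -/

/-- centred sum -/
def cs {k : ℕ} (b : Fin k → ℕ) (e : Fin k → Fin 3) : ℤ := ∑ i, (((e i : ℕ) : ℤ) - 1) * (b i : ℤ)

theorem moment : ∀ (k : ℕ) (b : Fin k → ℕ),
    (∑ e : Fin k → Fin 3, cs b e) = 0 ∧
    3 * ∑ e : Fin k → Fin 3, (cs b e) ^ 2 = 2 * 3 ^ k * ∑ i, (b i : ℤ) ^ 2 := by
  intro k
  induction k with
  | zero =>
    intro b
    simp [cs]
  | succ n ih =>
    intro b
    have hcs : ∀ (x : Fin 3) (e : Fin n → Fin 3), cs b (Fin.cons x e : Fin (n + 1) → Fin 3) =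
        (((x : ℕ) : ℤ) - 1) * (b 0 : ℤ) + cs (fun i => b i.succ) e := by
      intro x e
      simp [cs, Fin.sum_univ_succ]
    have hre : ∀ F : (Fin (n + 1) → Fin 3) → ℤ,
        ∑ e, F e = ∑ x : Fin 3, ∑ e : Fin n → Fin 3, F (Fin.cons x e) := by
      intro F
      rw [← (Fin.consEquiv (fun _ : Fin (n + 1) => Fin 3)).sum_comp, Fintype.sum_prod_type]
      rfl
    obtain ⟨ih1, ih2⟩ := ih (fun i => b i.succ)
    constructor
    · rw [hre]
      simp only [hcs, Finset.sum_add_distrib, ih1]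
      simp [Fin.sum_univ_three]
    · rw [hre]
      simp only [hcs]
      have hsq : ∀ x : Fin 3, ∑ e : Fin n → Fin 3,
          ((((x : ℕ) : ℤ) - 1) * (b 0 : ℤ) + cs (fun i => b i.succ) e) ^ 2 =
          3 ^ n * ((((x : ℕ) : ℤ) - 1) * (b 0 : ℤ)) ^ 2 +
            ∑ e : Fin n → Fin 3, (cs (fun i => b i.succ) e) ^ 2 := by
        intro x
        have : ∀ e : Fin n → Fin 3,
            ((((x : ℕ) : ℤ) - 1) * (b 0 : ℤ) + cs (fun i => b i.succ) e) ^ 2 =
            ((((x : ℕ) : ℤ) - 1) * (b 0 : ℤ)) ^ 2 +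
              2 * ((((x : ℕ) : ℤ) - 1) * (b 0 : ℤ)) * cs (fun i => b i.succ) e +
              (cs (fun i => b i.succ) e) ^ 2 := by
          intro e; ring
        simp only [this, Finset.sum_add_distrib, ← Finset.mul_sum, ih1]
        simp
      simp only [hsq]
      rw [Fin.sum_univ_three, Fin.sum_univ_succ]
      simp only [Fin.val_zero, Fin.val_one, Fin.val_two, Nat.cast_zero, Nat.cast_one,
        Nat.cast_ofNat]
      rw [pow_succ]
      linear_combination 3 * ih2

/-- sum of the squares of `n` distinct integers -/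
theorem sum_sq_ge : ∀ (n : ℕ) (A : Finset ℤ), A.card = n →
    ∑ j ∈ Finset.range n, (((j + 1) / 2 : ℕ) : ℤ) ^ 2 ≤ ∑ a ∈ A, a ^ 2 := by
  intro n
  induction n with
  | zero =>
    intro A hA
    rw [Finset.card_eq_zero] at hA
    simp [hA]
  | succ n ih =>
    intro A hA
    have hne : A.Nonempty := by
      rw [← Finset.card_pos]; omega
    obtain ⟨a, ha, hmax⟩ := Finset.exists_max_image A (fun x => |x|) hne
    have h1 : A ⊆ Finset.Icc (-|a|) |a| := by
      intro x hx
      rw [Finset.mem_Icc]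
      exact abs_le.1 (hmax x hx)
    have h2 := Finset.card_le_card h1
    rw [hA, Int.card_Icc] at h2
    have h3 : (((n + 1) / 2 : ℕ) : ℤ) ≤ |a| := by
      have := abs_nonneg a
      omega
    have h4 : (((n + 1) / 2 : ℕ) : ℤ) ^ 2 ≤ a ^ 2 := by
      rw [← sq_abs a]
      exact pow_le_pow_left₀ (by positivity) h3 2
    have h5 := ih (A.erase a) (by rw [Finset.card_erase_of_mem ha, hA]; rfl)
    rw [Finset.sum_range_succ, ← Finset.sum_erase_add A _ ha]
    linarith

theorem sum_half_sq (m : ℕ) :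
    3 * ∑ j ∈ Finset.range (2 * m + 1), (((j + 1) / 2 : ℕ) : ℤ) ^ 2 =
      m * (m + 1) * (2 * m + 1) := by
  induction m with
  | zero => simp
  | succ m ih =>
    have : 2 * (m + 1) + 1 = (2 * m + 1) + 1 + 1 := by ring
    rw [this, Finset.sum_range_succ, Finset.sum_range_succ, mul_add, mul_add, ih]
    have h1 : (2 * m + 1 + 1) / 2 = m + 1 := by omega
    have h2 : (2 * m + 1 + 1 + 1) / 2 = m + 1 := by omega
    rw [h1, h2]
    push_cast
    ring

theorem sq_bound {k : ℕ} {b : Fin k → ℕ} (h : Dist3 b) :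
    9 ^ k ≤ 8 * ∑ i, (b i) ^ 2 + 1 := by
  classical
  have hinj : Function.Injective (cs b) := by
    intro e e' hee
    apply h
    have hc : ∀ e, cs b e = (ws b e : ℤ) - ∑ i, (b i : ℤ) := by
      intro e
      simp [cs, ws, sub_mul, Finset.sum_sub_distrib]
    rw [hc, hc] at hee
    have : (ws b e : ℤ) = ws b e' := by linarith
    exact_mod_cast this
  obtain ⟨m, hm⟩ : ∃ m, 3 ^ k = 2 * m + 1 := by
    have : Odd (3 ^ k) := Odd.pow (by decide)
    exact this
  have hcard : (Finset.univ.image (cs b)).card = 2 * m + 1 := by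
    rw [Finset.card_image_of_injective _ hinj, ← hm]
    simp
  have h1 := sum_sq_ge _ _ hcard
  rw [Finset.sum_image (fun x _ y _ hxy => hinj hxy)] at h1
  have h2 := sum_half_sq m
  have h3 := (moment k b).2
  have hm' : (3 : ℤ) ^ k = 2 * m + 1 := by exact_mod_cast hm
  have h4 : (m : ℤ) * (m + 1) * (2 * m + 1) ≤ 2 * 3 ^ k * ∑ i, (b i : ℤ) ^ 2 := by
    rw [← h2, ← h3]
    linarith
  rw [hm'] at h4
  have h5 : (m : ℤ) * (m + 1) ≤ 2 * ∑ i, (b i : ℤ) ^ 2 := by
    have hpos : (0 : ℤ) < 2 * m + 1 := by positivity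
    nlinarith
  have h6 : (9 : ℤ) ^ k = (2 * m + 1) ^ 2 := by
    rw [← hm', ← pow_mul, mul_comm k 2, pow_mul]
    norm_num
  have h7 : (9 : ℤ) ^ k ≤ 8 * ∑ i, (b i : ℤ) ^ 2 + 1 := by
    rw [h6]
    nlinarith
  exact_mod_cast h7

end Pool.Agent.H1.G3
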