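import Pool.Agent.H1.G3.Proof

set_option autoImplicit false

namespace Pool.Agent.H1.G3

open Finset

theorem ws_cons {k : ℕ} (b : Fin k → ℕ) (a : ℕ) (x : Fin 3) (e : Fin k → Fin 3) :
    ws (Fin.cons a b : Fin (k + 1) → ℕ) (Fin.cons x e : Fin (k + 1) → Fin 3) =
      (x : ℕ) * a + ws b e := by
  simp [ws, Fin.sum_univ_succ]

theorem exists_cons {k : ℕ} (e : Fin (k + 1) → Fin 3) :
    ∃ (x : Fin 3) (e' : Fin k → Fin 3), e = (Fin.cons x e' : Fin (k + 1) → Fin 3) :=
  ⟨e 0, Fin.tail e, (Fin.cons_self_tail e).symm⟩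

/-- `S` is the bit set of the sums of `b` with coefficients `0,1,2` -/
def Rep {k : ℕ} (b : Fin k → ℕ) (S : ℕ) : Prop :=
  ∀ x, S.testBit x = true ↔ ∃ e, ws b e = x

def nextS (S a : ℕ) : ℕ := S ||| (S <<< a) ||| (S <<< (2 * a))

theorem rep_cons {k : ℕ} {b : Fin k → ℕ} {S : ℕ} (h : Rep b S) (a : ℕ) :
    Rep (Fin.cons a b : Fin (k + 1) → ℕ) (nextS S a) := by
  intro x
  have h' : ∀ x, S.testBit x = true ↔ ∃ e, ws b e = x := h
  simp only [nextS, Nat.testBit_or, Nat.testBit_shiftLeft, Bool.or_eq_true, Bool.and_eq_true,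
    decide_eq_true_eq, h']
  constructor
  · rintro ((⟨e, he⟩ | ⟨h1, e, he⟩) | ⟨h1, e, he⟩)
    · exact ⟨Fin.cons 0 e, by rw [ws_cons, he]; simp⟩
    · exact ⟨Fin.cons 1 e, by rw [ws_cons, he]; simp; omega⟩
    · exact ⟨Fin.cons 2 e, by rw [ws_cons, he]; simp; omega⟩
  · rintro ⟨e, he⟩
    obtain ⟨y, e', rfl⟩ := exists_cons e
    rw [ws_cons] at he
    fin_cases y
    · left; left
      exact ⟨e', by simpa using he⟩
    · left; right
      simp at he
      exact ⟨by omega, e', by omega⟩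
    · right
      simp at he
      exact ⟨by omega, e', by omega⟩

theorem and_zero {S T : ℕ} (h : S &&& T = 0) (x : ℕ) (h1 : S.testBit x = true)
    (h2 : T.testBit x = true) : False := by
  have : (S &&& T).testBit x = true := by
    rw [Nat.testBit_and, h1, h2]; rfl
  rw [h] at this
  simp at this

theorem dist_cons {k : ℕ} {b : Fin k → ℕ} {S a : ℕ} (h : Rep b S) (hd : Dist3 b)
    (h1 : S &&& (S <<< a) = 0) (h2 : S &&& (S <<< (2 * a)) = 0) (ha : 0 < a) :
    Dist3 (Fin.cons a b : Fin (k + 1) → ℕ) := by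
  have n1 : ∀ e e', ws b e ≠ a + ws b e' := by
    intro e e' he
    apply and_zero h1 (ws b e) ((h _).2 ⟨e, rfl⟩)
    rw [Nat.testBit_shiftLeft, Bool.and_eq_true, decide_eq_true_eq]
    exact ⟨by omega, (h _).2 ⟨e', by omega⟩⟩
  have n2 : ∀ e e', ws b e ≠ 2 * a + ws b e' := by
    intro e e' he
    apply and_zero h2 (ws b e) ((h _).2 ⟨e, rfl⟩)
    rw [Nat.testBit_shiftLeft, Bool.and_eq_true, decide_eq_true_eq]
    exact ⟨by omega, (h _).2 ⟨e', by omega⟩⟩
  intro u v huv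
  obtain ⟨x, e, rfl⟩ := exists_cons u
  obtain ⟨y, e', rfl⟩ := exists_cons v
  rw [ws_cons, ws_cons] at huv
  have a1 := n1 e e'
  have a2 := n1 e' e
  have a3 := n2 e e'
  have a4 := n2 e' e
  have hxy : x = y := by
    fin_cases x <;> fin_cases y <;> simp at huv ⊢ <;> omega
  subst hxy
  have : ws b e = ws b e' := by omega
  rw [hd this]

/-- a strictly increasing positive sequence of length `j+1` with distinct `{0,1,2}`-sums,
smallest element `lo`, largest element `m` -/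
def Good (j m lo : ℕ) (b : Fin (j + 1) → ℕ) : Prop :=
  StrictMono b ∧ (∀ i, 0 < b i) ∧ b (Fin.last j) = m ∧ b 0 = lo ∧ Dist3 b

theorem good_cons {j m lo a : ℕ} {b : Fin (j + 1) → ℕ} (h : Good j m lo b) (ha : 0 < a)
    (hlt : a < lo) (hd : Dist3 (Fin.cons a b : Fin (j + 2) → ℕ)) :
    Good (j + 1) m a (Fin.cons a b : Fin (j + 2) → ℕ) := by
  obtain ⟨h1, h2, h3, h4, h5⟩ := h
  refine ⟨?_, ?_, ?_, by simp, hd⟩
  · rw [Fin.strictMono_iff_lt_succ]
    intro i
    refine Fin.cases ?_ (fun i => ?_) i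
    · simp [h4, hlt]
    · have : (Fin.castSucc (Fin.succ i) : Fin (j + 2)) = Fin.succ (Fin.castSucc i) := rfl
      rw [this, Fin.cons_succ, Fin.cons_succ]
      exact h1 (by simp [Fin.lt_def])
  · intro i
    refine Fin.cases ?_ (fun i => ?_) i
    · simpa using ha
    · simpa using h2 i
  · rw [← Fin.succ_last, Fin.cons_succ]
    exact h3

def go : List ℕ → ℕ → ℕ → Bool
  | [], _, _ => true
  | a :: L, lo, S => decide (0 < a) && decide (a < lo) && ((S &&& (S <<< a)) == 0) &&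
      ((S &&& (S <<< (2 * a))) == 0) && go L a (nextS S a)

theorem go_spec : ∀ (L : List ℕ) (j m lo S : ℕ) (b : Fin (j + 1) → ℕ), Good j m lo b → Rep b S →
    go L lo S = true → ∃ (lo' : ℕ) (b' : Fin (j + L.length + 1) → ℕ),
      Good (j + L.length) m lo' b' := by
  intro L
  induction L with
  | nil =>
    intro j m lo S b h _ _
    exact ⟨lo, b, h⟩
  | cons a L ih =>
    intro j m lo S b h hS hgo
    rw [go] at hgo
    simp only [Bool.and_eq_true, decide_eq_true_eq, beq_iff_eq] at hgo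
    obtain ⟨⟨⟨⟨h1, h2⟩, h3⟩, h4⟩, h5⟩ := hgo
    have hd := dist_cons hS h.2.2.2.2 h3 h4 h1
    have key := ih (j + 1) m a (nextS S a) _ (good_cons h h1 h2 hd)
      (rep_cons hS a) h5
    have : j + 1 + L.length = j + (a :: L).length := by simp; omega
    rw [this] at key
    exact key

theorem good_single {m : ℕ} (hm : 0 < m) : Good 0 m m (fun _ => m) ∧
    Rep (fun _ : Fin 1 => m) (nextS 1 m) := by
  have h0 : Rep (Fin.elim0 : Fin 0 → ℕ) 1 := by
    intro x
    constructor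
    · intro h
      refine ⟨Fin.elim0, ?_⟩
      simp only [ws, Finset.univ_eq_empty, Finset.sum_empty]
      by_contra hne
      have : Nat.testBit 1 x = false := by
        obtain ⟨y, rfl⟩ : ∃ y, x = y + 1 := ⟨x - 1, by omega⟩
        simp [Nat.testBit_succ]
      rw [this] at h
      exact absurd h (by decide)
    · rintro ⟨e, he⟩
      simp only [ws, Finset.univ_eq_empty, Finset.sum_empty] at he
      subst he
      rfl
  have h1 : (Fin.cons m (Fin.elim0 : Fin 0 → ℕ) : Fin 1 → ℕ) = fun _ => m := by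
    funext i
    have : i = 0 := Fin.ext (by have := i.isLt; simp)
    subst this
    rfl
  constructor
  · refine ⟨?_, fun _ => hm, rfl, rfl, ?_⟩
    · intro i j hij
      exfalso
      have := i.isLt
      have := j.isLt
      have := Fin.lt_def.1 hij
      omega
    · intro e e' h
      have hs : ∀ e : Fin (0 + 1) → Fin 3, ws (fun _ => m) e = (e 0 : ℕ) * m := by
        intro e
        rw [ws, Fin.sum_univ_succ]
        simp
      rw [hs, hs] at h
      have h2 : ((e 0 : Fin 3) : ℕ) = e' 0 := Nat.eq_of_mul_eq_mul_right hm h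
      funext i
      have : i = 0 := Fin.ext (by have := i.isLt; simp)
      rw [this]
      exact Fin.ext h2
  · have := rep_cons h0 m
    rw [h1] at this
    exact this

/-- the multiplication step -/
theorem good_triple {j m lo : ℕ} {b : Fin (j + 1) → ℕ} (h : Good j m lo b) :
    ∃ b' : Fin (j + 2) → ℕ, Good (j + 1) (3 * m) 1 b' := by
  obtain ⟨h1, h2, h3, h4, h5⟩ := h
  have hws : ∀ e, ws (fun i => 3 * b i) e = 3 * ws b e := by
    intro e
    simp only [ws, Finset.mul_sum]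
    apply Finset.sum_congr rfl
    intro i _
    ring
  have hg : Good j (3 * m) (3 * lo) (fun i => 3 * b i) := by
    refine ⟨?_, ?_, by simp [h3], by simp [h4], ?_⟩
    · intro x y hxy
      have := h1 hxy
      show 3 * b x < 3 * b y
      omega
    · intro i
      have := h2 i
      show 0 < 3 * b i
      omega
    · intro e e' he
      rw [hws, hws] at he
      exact h5 (by omega)
  refine ⟨_, good_cons hg one_pos ?_ ?_⟩
  · have := h2 0
    omega
  · intro u v huv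
    obtain ⟨x, e, rfl⟩ := exists_cons u
    obtain ⟨y, e', rfl⟩ := exists_cons v
    rw [ws_cons, ws_cons, hws, hws] at huv
    have hx := x.isLt
    have hy := y.isLt
    have hxy : (x : ℕ) = y := by omega
    have : ws b e = ws b e' := by omega
    rw [h5 this, Fin.ext hxy]

theorem good_pow {j m : ℕ} (h : ∃ (lo : ℕ) (b : Fin (j + 1) → ℕ), Good j m lo b) (t : ℕ) :
    ∃ (lo : ℕ) (b : Fin (j + t + 1) → ℕ), Good (j + t) (3 ^ t * m) lo b := by
  induction t with
  | zero => simpa using h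
  | succ t ih =>
    obtain ⟨lo, b, hb⟩ := ih
    obtain ⟨b', hb'⟩ := good_triple hb
    refine ⟨1, b', ?_⟩
    have : 3 ^ (t + 1) * m = 3 * (3 ^ t * m) := by ring
    rw [this]
    exact hb'

theorem attains_of_good {j m lo : ℕ} {b : Fin (j + 1) → ℕ} (h : Good j m lo b) :
    Attains 3 (j + 1) m := by
  obtain ⟨h1, h2, h3, h4, h5⟩ := h
  refine ⟨b, h1, h2, ⟨⟨Fin.last j, h3⟩, ?_⟩, noAP_of_dist h5⟩
  rintro x ⟨i, rfl⟩
  rw [← h3]
  exact h1.monotone (Fin.le_last i)

theorem g_le_of_good {j m lo : ℕ} {b : Fin (j + 1) → ℕ} (h : Good j m lo b) :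
    g 3 (j + 1) ≤ m := Nat.sInf_le (attains_of_good h)

theorem nonempty_attains (j : ℕ) : {m | Attains 3 (j + 1) m}.Nonempty := by
  have h := good_pow (j := 0) (m := 1) ⟨1, _, (good_single one_pos).1⟩ j
  rw [zero_add] at h
  obtain ⟨lo, b, hb⟩ := h
  exact ⟨_, attains_of_good hb⟩

theorem attains_g (k : ℕ) (hk : 1 ≤ k) : Attains 3 k (g 3 k) := by
  obtain ⟨j, rfl⟩ : ∃ j, k = j + 1 := ⟨k - 1, by omega⟩
  exact Nat.sInf_mem (nonempty_attains j)

theorem g_le_pow (k : ℕ) (hk : 1 ≤ k) : g 3 k ≤ 3 ^ (k - 1) := by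
  obtain ⟨j, rfl⟩ : ∃ j, k = j + 1 := ⟨k - 1, by omega⟩
  have h := good_pow (j := 0) (m := 1) ⟨1, _, (good_single one_pos).1⟩ j
  rw [zero_add] at h
  obtain ⟨lo, b, hb⟩ := h
  have := g_le_of_good hb
  simpa using this

theorem good3 : ∃ (lo : ℕ) (b : Fin 3 → ℕ), Good 2 8 lo b := by
  have h := good_single (m := 8) (by norm_num)
  exact go_spec [7, 5] 0 8 8 _ _ h.1 h.2 (by decide +kernel)

theorem g_le_three (k : ℕ) (hk : 3 ≤ k) : g 3 k ≤ 8 * 3 ^ (k - 3) := by
  obtain ⟨t, rfl⟩ : ∃ t, k = 2 + t + 1 := ⟨k - 3, by omega⟩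
  obtain ⟨lo, b, hb⟩ := good_pow good3 t
  have := g_le_of_good hb
  have e : 2 + t + 1 - 3 = t := by omega
  rw [e]
  linarith

theorem good16 : ∃ (lo : ℕ) (b : Fin 16 → ℕ), Good 15 7923881 lo b := by
  have h := good_single (m := 7923881) (by norm_num)
  exact go_spec [7923880, 7923878, 7923873, 7923859, 7923821, 7923712, 7923404, 7922494,
    7919840, 7912096, 7889172, 7821618, 7622520, 7027880, 5259448] 0 7923881 7923881 _ _ h.1 h.2 (by decide +kernel)

theorem g_le_sixteen (k : ℕ) (hk : 16 ≤ k) : g 3 k ≤ 7923881 * 3 ^ (k - 16) := by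
  obtain ⟨t, rfl⟩ : ∃ t, k = 15 + t + 1 := ⟨k - 16, by omega⟩
  obtain ⟨lo, b, hb⟩ := good_pow good16 t
  have := g_le_of_good hb
  have e : 15 + t + 1 - 16 = t := by omega
  rw [e]
  linarith

/-! ### lower bounds -/

theorem sq_bound_of_noAP {k : ℕ} {b : Fin k → ℕ} (hb : StrictMono b) (hpos : ∀ i, 0 < b i)
    (h : ¬ HasAP 3 (SubsetSums b)) : 9 ^ k ≤ 8 * ∑ i, (b i) ^ 2 + 1 :=
  sq_bound (dist_of_noAP hb hpos h)

theorem g_lower (k : ℕ) (hk : 1 ≤ k) : 9 ^ k ≤ 8 * k * (g 3 k) ^ 2 + 1 := by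
  obtain ⟨b, h1, h2, h3, h4⟩ := attains_g k hk
  have h5 := sq_bound_of_noAP h1 h2 h4
  have h6 : ∑ i, (b i) ^ 2 ≤ k * (g 3 k) ^ 2 := by
    have : ∑ i, (b i) ^ 2 ≤ ∑ i : Fin k, (g 3 k) ^ 2 := by
      apply Finset.sum_le_sum
      intro i _
      exact Nat.pow_le_pow_left (h3.2 ⟨i, rfl⟩) 2
    simpa using this
  nlinarith

theorem g_one : g 3 1 = 1 := by
  have h1 := g_le_pow 1 le_rfl
  have h2 := g_lower 1 le_rfl
  have h3 : g 3 1 ≠ 0 := by
    intro h0
    rw [h0] at h2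
    norm_num at h2
  simp at h1
  omega

theorem g_two : g 3 2 = 3 := by
  have h1 := g_le_pow 2 (by norm_num)
  simp at h1
  obtain ⟨b, h2, h3, h4, h5⟩ := attains_g 2 (by norm_num)
  have h6 := sq_bound_of_noAP h2 h3 h5
  rw [Fin.sum_univ_two] at h6
  have h7 : b 1 ≤ g 3 2 := h4.2 ⟨1, rfl⟩
  have h8 : b 0 < b 1 := h2 (by decide)
  by_contra hne
  have h9 : b 1 ≤ 2 := by omega
  have h10 : b 0 ≤ 1 := by omega
  have h11 : b 0 ^ 2 ≤ 1 ^ 2 := Nat.pow_le_pow_left h10 2
  have h12 : b 1 ^ 2 ≤ 2 ^ 2 := Nat.pow_le_pow_left h9 2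
  omega

theorem small3 : ∀ x y z : Fin 8, (0 : ℕ) < x → (x : ℕ) < y → (y : ℕ) < z →
    ∃ a b c a' b' c' : Fin 3, (a ≠ a' ∨ b ≠ b' ∨ c ≠ c') ∧
      (a : ℕ) * x + (b : ℕ) * y + (c : ℕ) * z = (a' : ℕ) * x + (b' : ℕ) * y + (c' : ℕ) * z := by
  decide +kernel

theorem g_three : g 3 3 = 8 := by
  have h1 := g_le_three 3 le_rfl
  simp at h1
  obtain ⟨b, h2, h3, h4, h5⟩ := attains_g 3 (by norm_num)
  have hd := dist_of_noAP h2 h3 h5
  by_contra hne
  have h7 : b 2 ≤ g 3 3 := h4.2 ⟨2, rfl⟩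
  have h8 : b 0 < b 1 := h2 (by decide)
  have h9 : b 1 < b 2 := h2 (by decide)
  have h10 := h3 0
  obtain ⟨a, p, c, a', p', c', hor, heq⟩ := small3 ⟨b 0, by omega⟩ ⟨b 1, by omega⟩ ⟨b 2, by omega⟩
    h10 h8 h9
  have h11 : ws b ![a, p, c] = ws b ![a', p', c'] := by
    simp only [ws, Fin.sum_univ_three]
    exact heq
  have h12 := hd h11
  have e0 := congrFun h12 0
  have e1 := congrFun h12 1
  have e2 := congrFun h12 2
  simp at e0 e1 e2
  rcases hor with h | h | h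
  · exact h e0
  · exact h e1
  · exact h e2

theorem g_eq_iff (k : ℕ) (hk : 1 ≤ k) : g 3 k = 3 ^ (k - 1) ↔ k ≤ 2 := by
  constructor
  · intro h
    by_contra hcon
    have h1 := g_le_three k (by omega)
    rw [h] at h1
    have h2 : k - 1 = (k - 3) + 2 := by omega
    rw [h2, pow_add] at h1
    have h3 : 0 < 3 ^ (k - 3) := by positivity
    omega
  · intro h
    interval_cases k
    · simpa using g_one
    · simpa using g_two

end Pool.Agent.H1.G3
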